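import Pool.Agent.Q170.HL.Hod

/-!
# MP_0704bf_ag: the Zilber-Pink conjecture for the Hodge locus of almost all integral members of families
of variations of Hodge structure given by elliptic schemes

**The variations.** Let `K ⊂ ℂ` be a countable field and `t = (t_1, …, t_r)` parameters. Let
`B_t ⊆ P^N` be a family of projective algebraic sets, defined by forms `G` with coefficients in
`K[t]` (`OnB`).

*Weierstrass families.* Let `a_i`, `b_i`, `i = 1, …, n`, be forms of degrees `4 w_i` and `6 w_i` with
coefficients in `K[t]`, and `Δ_i = 4 a_i³ + 27 b_i²`. They give the elliptic schemes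
`y'² = x'³ + a_i (t; y) x' + b_i (t; y)` over `S_t = {y ∈ B_t | Δ_i (t; y) ≠ 0 for all i}`, and the
polarizable variation of Hodge structure `𝕍_t = ⊕ R¹π_{i*} ℤ` on `S_t`. Its period map
`Φ : S_t → Y(1)^n = ℂ^n` is given by the `j`-invariants `6912 a_i³ / Δ_i` (`weierstrass`).

*Level structures.* More generally let `X_i` be modular curves of any levels and `s_i` modular functions
on `X_i`, integral over `K[j]`, `R_i (s_i, j) = 0` with `R_i` monic in the first variable, of degree at
most `T` in both variables, and `A_i`, `P_i` forms of degree `δ_i` with coefficients in `K[t]`. Let `S_t`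
be the set of the points `(y, x)` such that `y ∈ B_t` and for some `s` we have `R_i (s_i, x_i) = 0` and
`P_i (t; y) s_i = A_i (t; y)` for all `i` (`total`): the base of the family of elliptic curves with
level structures which is induced by the rational maps `s_i = A_i / P_i` from `B_t` to the `X_i` (or
to curves covered by them). Here `Φ (y, x) = x`.

**The special subvarieties** for `𝕍_t` are the components of `Φ⁻¹ (Z)`, where `Z` is a special
subvariety of `Y(1)^n`, of dimension `ρ` (`SpecialVariety`): it is given by a map from the
coordinates onto `ρ` classes, the constant coordinates are special points, and the coordinates of class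
`l` are `j (g_i z_l)`, with fixed integral matrices `g_i` of positive determinant and a free parameter
`z_l` in the upper half plane. We allow also the constants which are integral over the ring generated
by any given finite set `Γ`, of elements of `K`.

`HodgeTypical` says that all components of `Φ⁻¹ (Z)` have dimension at most `m - (n - ρ)`, for all
`Z`, where `m` is the dimension of `B_t`: if `(y, x)` is in `S_t` and `x ∈ Z`, then at most
`m - (n - ρ)` of the ratios `y_j / y_{j0}` are algebraically independent over `K`, and if the general
points of an irreducible closed set `W ⊆ P^N` have this property, then `dim W ≤ m - (n - ρ)`. If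
`S_t` is irreducible of dimension `m` and the fibres of `Φ` have dimension `f` in general, it follows
that `dim Φ(W) ≤ dim W - f ≤ dim Φ(S_t) - (n - ρ)` for all special subvarieties `W`, that is,
`codim Φ(W) ≥ codim Φ(S_t) + codim Z`. So there are no atypical special subvarieties, except possibly
those contained in the singular locus of `S_t` for `𝕍_t`, a proper closed subset, in which every
special subvariety is atypical by definition. (For `W = S_t` one gets `ρ = n`, so `Φ(S_t)` is contained
in no proper special subvariety and the generic Mumford-Tate domain of `𝕍_t` is the product of `n` upper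
half planes.)

**The theorem for several parameters** (`AlmostAll`). Let `D_l, E_l ∈ ℤ[t]`, `l = 1, …, m + 2`. We
suppose that along the hypersurface `D_l = 0` of the space of the parameters all the elliptic curves over
the points of the base become nodal: `Δ_i = D_l ^ e_{l i} U_{l i}`, and `P_i = D_l ^ e_{l i} U_{l i}` in
the general case, with forms `U_{l i}`. The exponents are positive and multiplicatively independent
modulo squares (`IndExp`): no product of distinct `e_{l i}` times a number all of whose prime factors are
at most `T` is a square (`T = 1` for the Weierstrass families; this is so if the `e_{l i}` are distinct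
prime numbers larger than `T`). Outside `E_l = 0`, for all complex `t` with `D_l (t) = 0`,
`E_l (t) ≠ 0`, the divisors are in general position (`InGeneralPosition`): no point of `B_t` is on
`m + 1` of the `n` divisors `a_i U_{l i} = 0` (`A_i U_{l i} = 0`) and `m + 1` given hyperplanes with
integral coefficients. (If the intersection of `B_t` with any `j` of the divisors has dimension
`m - j`, or is empty for `j > m`, this holds for `m + 1` general hyperplanes after a change of `E_l`.)
Nothing is assumed for the other `t`. Then
1. there is a number `Q₀` such that `HodgeTypical` holds for `S_t` for all `t ∈ ℤ^r` such that every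
one of the `m + 2` integers `D_l (t)` has a prime factor `p > Q₀` which does not divide `E_l (t)`;
2. if the `D_l` are not constant and `D_l`, `E_l` have no common factor in `ℤ[t]`, then for
every `ε > 0` the number of the `t ∈ ℤ^r` with `|t_j| ≤ H` for which this does not hold is at most
`C H ^ (r - 1 + ε)`: the conjecture is true for 100 per cent of the members, with a power saving.

In the starting files (`RandomWeierstrassFamilies`, `RandomLevelStructures`) the base is fixed and the
conjecture is proved for a positive proportion of all families over it. The companion
`MembersOverFGFields` treats one parameter in a finitely generated field.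

**Proof.** If `a` of the ratios of the values of the given linear forms at `y` are algebraically
independent, there are places of `ℂ` above a prime factor `p` of `D_l (t)` at which these ratios are
divisible by `p`. So the reduction of `y` lies on `a` of the hyperplanes and at most on `m - a` of the
divisors. The other coordinates have poles of the orders `e_{l i}`, and the parity argument
(`Pool.Agent.Q170.ZP.coreW`) for `m - a + 2` of the places shows `n - (m - a) ≤ ρ`.
-/

set_option autoImplicit false

namespace Pool.Agent.Results.MP_0704bf_ag.AlmostAllMembers

open MvPolynomial Pool.Agent.Q170.HL.Hod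
open Pool.Agent.Q170.ZP (IndExp)
open Pool.Agent.Q170.HL (IndependentOrders)

/-- The Hodge locus of the integral members of families of variations of Hodge structure given by
elliptic curves with level structures, and by Weierstrass families of elliptic curves. -/
theorem result (K : Subfield ℂ) [Countable K] (κ : Type) [Finite κ] (N n m : ℕ)
    (r : ℕ) (G : κ → MvPolynomial (Fin (N + 1)) (MvPolynomial (Fin r) K))
    (hG : ∀ a, ∃ e, (G a).IsHomogeneous e) (D E : Fin (m + 2) → MvPolynomial (Fin r) ℤ)
    (h : Fin (m + 2) → Fin (m + 1) → Fin (N + 1) → ℤ) (e : Fin (m + 2) → Fin n → ℕ)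
    (Γ : Finset ℂ) (hΓ : ∀ γ ∈ Γ, γ ∈ K) :
      (∀ T : ℕ, IndExp T e →
        ∀ (A P : Fin n → MvPolynomial (Fin (N + 1)) (MvPolynomial (Fin r) K)) (δ : Fin n → ℕ),
        (∀ i, (A i).IsHomogeneous (δ i)) → ∀ R : Fin n → Polynomial (Polynomial K),
        (∀ i, (R i).Monic) → (∀ i u w, ((R i).coeff u).coeff w ≠ 0 → u ≤ T ∧ w ≤ T) →
        ∀ U : Fin (m + 2) → Fin n → MvPolynomial (Fin (N + 1)) (MvPolynomial (Fin r) K),
        (∀ l i, (U l i).IsHomogeneous (δ i)) →
        (∀ l i, P i = C (MvPolynomial.map (Int.castRingHom K) (D l)) ^ e l i * U l i) →
        (∀ l (t : Fin r → ℂ), aeval t (D l) = 0 → aeval t (E l) ≠ 0 →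
          InGeneralPosition (evalMany K t) G (fun i => A i * U l i) (h l)) →
        AlmostAll D E fun t => HodgeTypical (algebraMap (Algebra.adjoin ℤ (Γ : Set ℂ)) ℂ) K m
          (total (evalMany K fun j => (t j : ℂ)) G A P R)) ∧
      (IndExp 1 e →
        ∀ (a b : Fin n → MvPolynomial (Fin (N + 1)) (MvPolynomial (Fin r) K)) (w : Fin n → ℕ),
        (∀ i, (a i).IsHomogeneous (4 * w i)) → (∀ i, (b i).IsHomogeneous (6 * w i)) →
        ∀ U : Fin (m + 2) → Fin n → MvPolynomial (Fin (N + 1)) (MvPolynomial (Fin r) K),
        (∀ l i, (U l i).IsHomogeneous (12 * w i)) →
        (∀ l i, 4 * a i ^ 3 + 27 * b i ^ 2 =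
          C (MvPolynomial.map (Int.castRingHom K) (D l)) ^ e l i * U l i) →
        (∀ l (t : Fin r → ℂ), aeval t (D l) = 0 → aeval t (E l) ≠ 0 →
          InGeneralPosition (evalMany K t) G (fun i => a i * U l i) (h l)) →
        AlmostAll D E fun t => HodgeTypical (algebraMap (Algebra.adjoin ℤ (Γ : Set ℂ)) ℂ) K m
          (weierstrass (evalMany K fun j => (t j : ℂ)) G a b)) := by
  classical
  refine ⟨fun T hind A P δ hA R hR hT U hU hP hpos =>
    general K κ r N n m T G hG D E h e hind Γ hΓ A P δ hA R hR hT U hU hP hpos, ?_⟩
  intro hind a b w ha hb U hU hP hpos
  have h1 := general K κ r N n m 1 G hG D E h e hind Γ hΓ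
    (fun i => C ((6912 : ℤ) : MvPolynomial (Fin r) K) * a i ^ 3)
    (fun i => 4 * a i ^ 3 + 27 * b i ^ 2) (fun i => 12 * w i)
    (fun i => hom_num _ _ (ha i)) (Rj K n) Rj_monic Rj_T U hU hP
    (fun l t hD hE => pos_num _ G a (U l) (h l) (hpos l t hD hE))
  obtain ⟨Q, hQ⟩ := h1.1
  exact almostAll_of ⟨Q, fun t ht => (hQ t ht).mono (weierstrass_sub _ G a b)⟩

end Pool.Agent.Results.MP_0704bf_ag.AlmostAllMembers
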