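import Mathlib
import Pool.Agent.Q8.ZA.ModShare3

/-!
MP_0704bf_ag, Q1, for the variations of Hodge structures given by `n` families of elliptic curves:
a share of the points of every fibre of a finite morphism to a projective space lies outside the
Hodge locus.
-/

set_option autoImplicit false

namespace Pool.Agent.Results.MP_0704bf_ag.FibresOffTheHodgeLocus

open Pool.Agent.Q8.KS Pool.Agent.Q8.ZA

/-- Let `E_1, ..., E_n` be families of elliptic curves over a variety `U` over a number field `K`
with absolute Galois group `G`, let `W` be a projective closure of `U` to which the `j`-invariants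
extend as morphisms `x_i : W → ℙ¹`, let `m = dim W`, let `φ : W → ℙ^m` be a finite morphism of
degree `N`, `H = φ^* O(1)`, and suppose that the degrees `δ_i = x_i^* O(1) ⋅ H^(m-1)` are positive
and different from each other. Let `ρ > 0` be smaller than `1 / m` and than
`(1 - δ_k / δ_i) / m` for all `i, k` with `δ_k < δ_i`. There is a proper closed subset `Z` of `W`
such that for every `e` there is a constant `C` with:

(1) For every point `t` of `ℙ^m` outside `φ(Z)` with `h(t) ≥ C` and `[K(t) : K] ≤ e`, at least
`ρ N` of the points of `φ⁻¹(t)`, counted with multiplicity, are outside `U` or points `w` such that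
`E_i(w)` has no complex multiplication, for every `i`; and at least `ρ N` of them are outside `U` or
points `w` such that `E_i(w)` and `E_k(w)` are not isogenous, for all `i ≠ k`.

(2) There are only finitely many points `w` of `U` with `[K(w) : K(φ(w))] > (1 - ρ) N`,
`[K(φ(w)) : K] ≤ e` and `φ(w)` not in `φ(Z)` in the Hodge locus of `⨁ H¹(E_i)`, that is, such that
some `E_i(w)` has complex multiplication or `E_i(w)` and `E_k(w)` are isogenous for some `i ≠ k`. -/
theorem result {G : Type} [Group G] (W : Variety G) (E : Effective W) (Y : ModularCurve G) (n : ℕ)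
    (M : ModularMap W Y n) (φ : Cover W) (hnef : ∀ i, W.cls (M.D i) ∈ W.Nef) (ρ : ℝ)
    (h : Separated M φ ρ) :
    ∃ Z ∈ E.closed, ∀ e : ℕ, (∃ C : ℝ, ∀ t : φ.P, C ≤ φ.h t →
      (MulAction.orbit G t).ncard ≤ e → (∀ y ∈ φ.fib t, y ∉ Z) → ShareOff M φ ρ t) ∧
        (specialPoints M φ ρ Z e).Finite :=
  share_off E M φ hnef h

end Pool.Agent.Results.MP_0704bf_ag.FibresOffTheHodgeLocus
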