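import Pool.Agent.Q170.HL.Hod

/-!
# MP_0704bf_ag: the Zilber-Pink conjecture for the Hodge locus of all but finitely many members of
one-parameter families, over finitely generated fields

**The variations.** Let `K ⊂ ℂ` be a countable field and `t = (t_1, …, t_r)` parameters. Let
`B_t ⊆ P^N` be a family of projective algebraic sets, defined by forms `G` with coefficients in
`K[t]` (`OnB`).

*Weierstrass families.* Let `a_i`, `b_i`, `i = 1, …, n`, be forms of degrees `4 w_i` and `6 w_i` with
coefficients in `K[t]`, and `Δ_i = 4 a_i³ + 27 b_i²`. They give the elliptic schemes
`y'² = x'³ + a_i (t; y) x' + b_i (t; y)` over `S_t = {y ∈ B_t | Δ_i (t; y) ≠ 0 for all i}`, and the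
polarizable variation of Hodge structure `𝕍_t = ⊕ R¹π_{i*} ℤ` on `S_t`. Its period map
`Φ : S_t → Y(1)^n = ℂ^n` is given by the `j`-invariants `6912 a_i³ / Δ_i` (`weierstrass`).

*Level structures.* More generally let `X_i` be modular curves of any levels and `s_i` modular functions
on `X_i`, integral over `K[j]`, `R_i (s_i, j) = 0` with `R_i` monic in the first variable, of degree at
most `T` in both variables, and `A_i`, `P_i` forms of degree `δ_i` with coefficients in `K[t]`. Let `S_t`
be the set of the points `(y, x)` such that `y ∈ B_t` and for some `s` we have `R_i (s_i, x_i) = 0` and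
`P_i (t; y) s_i = A_i (t; y)` for all `i` (`total`): the base of the family of elliptic curves with
level structures which is induced by the rational maps `s_i = A_i / P_i` from `B_t` to the `X_i` (or
to curves covered by them). Here `Φ (y, x) = x`.

**The special subvarieties** for `𝕍_t` are the components of `Φ⁻¹ (Z)`, where `Z` is a special
subvariety of `Y(1)^n`, of dimension `ρ` (`SpecialVariety`): it is given by a map from the
coordinates onto `ρ` classes, the constant coordinates are special points, and the coordinates of class
`l` are `j (g_i z_l)`, with fixed integral matrices `g_i` of positive determinant and a free parameter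
`z_l` in the upper half plane. We allow also the constants which are integral over the ring generated
by any given finite set `Γ`, of numbers algebraic over `K`.

`HodgeTypical` says that all components of `Φ⁻¹ (Z)` have dimension at most `m - (n - ρ)`, for all
`Z`, where `m` is the dimension of `B_t`: if `(y, x)` is in `S_t` and `x ∈ Z`, then at most
`m - (n - ρ)` of the ratios `y_j / y_{j0}` are algebraically independent over `K`, and if the general
points of an irreducible closed set `W ⊆ P^N` have this property, then `dim W ≤ m - (n - ρ)`. If
`S_t` is irreducible of dimension `m` and the fibres of `Φ` have dimension `f` in general, it follows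
that `dim Φ(W) ≤ dim W - f ≤ dim Φ(S_t) - (n - ρ)` for all special subvarieties `W`, that is,
`codim Φ(W) ≥ codim Φ(S_t) + codim Z`. So there are no atypical special subvarieties, except possibly
those contained in the singular locus of `S_t` for `𝕍_t`, a proper closed subset, in which every
special subvariety is atypical by definition. (For `W = S_t` one gets `ρ = n`, so `Φ(S_t)` is contained
in no proper special subvariety and the generic Mumford-Tate domain of `𝕍_t` is the product of `n` upper
half planes.)

**The theorem for one parameter over finitely generated fields** (`AllButFinitelyMany`). Let `t` be one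
parameter, `c_i ∈ K[t]`, `Δ_i = c_i U_i` (`P_i = c_i U_i` in the general case), and let `D_1, …, D_M` be
finite sets of complex numbers `α`, algebraic over `K`, such that the divisors `a_i U_i = 0`
(`A_i U_i = 0`) and `m + 1` hyperplanes are in general position for `t = α`, and such that the orders
of the zeros of the `c_i` at the elements of any `m + 2` of the sets `D_l` are independent in the
sense above (`IndependentOrders`). Let `F` be a finite set of numbers which are algebraic over `K`.
1. If the union of any `M - m - 1` of the sets `D_l` has at least three elements (for example, if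
`m + 4` members of the family are degenerate in this way, or if `M = m + 2` and all `D_l` have at
least three elements), then `HodgeTypical` holds for `S_t` for all but finitely many elements `t` of the
field generated by `F`. 2. If the union of any `M - m - 1` of the sets has at least two elements, it
holds for all but finitely many elements `t` of the ring generated by `F`.

In the starting files (`RandomWeierstrassFamilies`, `RandomLevelStructures`) the base is fixed and the
conjecture is proved for a positive proportion of all families over it. The companion
`AlmostAllMembers` treats several parameters in `ℤ`.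

**Proof.** If `a` of the ratios of the values of the given linear forms at `y` are algebraically
independent, there are places of `ℂ` above a prime ideal containing `t - α` at which these ratios are
not units. So the reduction of `y` lies on `a` of the hyperplanes and at most on `m - a` of the divisors.
The other coordinates have poles of multiples of the orders `e_{l i}`, and the parity argument
(`Pool.Agent.Q170.ZP.coreW`) for `m - a + 2` of the places shows `n - (m - a) ≤ ρ`. Siegel's theorem on
`S`-units for finitely generated fields (from the starting library) provides the primes for all but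
finitely many `t`.
-/

set_option autoImplicit false

namespace Pool.Agent.Results.MP_0704bf_ag.MembersOverFGFields

open MvPolynomial Pool.Agent.Q170.HL.Hod
open Pool.Agent.Q170.ZP (IndExp)
open Pool.Agent.Q170.HL (IndependentOrders)

/-- The Hodge locus of the members of one-parameter families of variations of Hodge structure given by
elliptic curves with level structures, and by Weierstrass families of elliptic curves, over finitely
generated fields. -/
theorem result (K : Subfield ℂ) [Countable K] (κ : Type) [Finite κ] (N n m : ℕ)
    (G : κ → MvPolynomial (Fin (N + 1)) (Polynomial K)) (hG : ∀ a, ∃ e, (G a).IsHomogeneous e)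
    (M : ℕ) (D : Fin M → Finset ℂ) (hD : ∀ l, ∀ α ∈ D l, IsAlgebraic K α)
    (c : Fin n → Polynomial K) (h : Fin (m + 1) → Fin (N + 1) → ℤ) (Γ : Finset ℂ)
    (hΓ : ∀ γ ∈ Γ, IsAlgebraic K γ) :
      (∀ T : ℕ, IndependentOrders m T c D →
        ∀ (A P U : Fin n → MvPolynomial (Fin (N + 1)) (Polynomial K)) (δ : Fin n → ℕ),
        (∀ i, (A i).IsHomogeneous (δ i)) → (∀ i, (U i).IsHomogeneous (δ i)) →
        (∀ i, P i = C (c i) * U i) → ∀ R : Fin n → Polynomial (Polynomial K),
        (∀ i, (R i).Monic) → (∀ i u w, ((R i).coeff u).coeff w ≠ 0 → u ≤ T ∧ w ≤ T) →
        (∀ l, ∀ α ∈ D l, InGeneralPosition (evalOne K α) G (fun i => A i * U i) h) →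
        AllButFinitelyMany K m D fun t =>
          HodgeTypical (algebraMap (Algebra.adjoin ℤ (Γ : Set ℂ)) ℂ) K m
            (total (evalOne K t) G A P R)) ∧
      (IndependentOrders m 1 c D →
        ∀ (a b U : Fin n → MvPolynomial (Fin (N + 1)) (Polynomial K)) (w : Fin n → ℕ),
        (∀ i, (a i).IsHomogeneous (4 * w i)) → (∀ i, (b i).IsHomogeneous (6 * w i)) →
        (∀ i, (U i).IsHomogeneous (12 * w i)) →
        (∀ i, 4 * a i ^ 3 + 27 * b i ^ 2 = C (c i) * U i) →
        (∀ l, ∀ α ∈ D l, InGeneralPosition (evalOne K α) G (fun i => a i * U i) h) →
        AllButFinitelyMany K m D fun t =>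
          HodgeTypical (algebraMap (Algebra.adjoin ℤ (Γ : Set ℂ)) ℂ) K m
            (weierstrass (evalOne K t) G a b)) := by
  classical
  refine ⟨fun T hind A P U δ hA hU hP R hR hT hpos =>
    generalF K κ N n m M T G hG D hD c hind h Γ hΓ A P U δ hA hU hP R hR hT hpos, ?_⟩
  intro hind a b U w ha hb hU hP hpos
  have h1 := generalF K κ N n m M 1 G hG D hD c hind h Γ hΓ
    (fun i => C ((6912 : ℤ) : Polynomial K) * a i ^ 3)
    (fun i => 4 * a i ^ 3 + 27 * b i ^ 2) U (fun i => 12 * w i)
    (fun i => hom_num _ _ (ha i)) hU hP (Rj K n) Rj_monic Rj_T
    (fun l α hα => pos_num _ G a U h (hpos l α hα))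
  intro F hF
  exact ⟨fun hM => ((h1 F hF).1 hM).subset fun t ht => ⟨ht.1, fun h2 => ht.2
      (h2.mono (weierstrass_sub _ G a b))⟩,
    fun hM => ((h1 F hF).2 hM).subset fun t ht => ⟨ht.1, fun h2 => ht.2
      (h2.mono (weierstrass_sub _ G a b))⟩⟩

end Pool.Agent.Results.MP_0704bf_ag.MembersOverFGFields
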