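import Pool.Agent.Q207.GH.Plk4

/-!
# Integral points of the Hodge locus and sub-Hodge structures

Let `X_{i,x}`, `1 ≤ i ≤ k`, be families of smooth projective varieties over open parts `S_i` of the line over `ℚ`, given by the period
matrices `P_i(x)` near a rational point `x = 0`, and let `W` be any Hodge structure. The variation of Hodge structure `M ⊕ W`,
`M = ⨁ H^*(X_{i,x_i})`, over the product `S` of the curves `S_i`, with `W` constant, has a Hodge locus: the points at which some tensor
power of `M ⊕ W` has more sub-Hodge structures than at a very general point.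

We prove that almost all integral points of `S` are not in the Hodge locus: at the point `(1/t_i)` all sub-Hodge structures `U` of all
tensor powers of `M_t ⊕ W` stay sub-Hodge structures when they are moved by the monodromy group, they are stable under a subgroup
of finite index of the monodromy group, and if the monodromy groups are full symplectic or orthogonal groups they are stable under
their Lie algebras acting trivially on `W`.
-/

set_option autoImplicit false

open PowerSeries

namespace Pool.Agent.Results.MP_0704bf_ag.SubHodgeAtIntegralPoints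

/-! ### Families of G-functions -/

/-- an integer polynomial as a power series with rational coefficients -/
noncomputable def toQ (P : Polynomial ℤ) : PowerSeries ℚ := ((P.map (Int.castRingHom ℚ) : Polynomial ℚ) : PowerSeries ℚ)

/-- the power series `P(u^e)` -/
noncomputable def atPow (e : ℕ) (P : Polynomial ℤ) : PowerSeries ℂ :=
  ((Polynomial.expand ℂ e (P.map (Int.castRingHom ℂ)) : Polynomial ℂ) : PowerSeries ℂ)

/-- the matrices `G_s` over `ℤ[x]` with `T^s y^(s) = G_s y` for all solutions `y` of `T y' = A y` -/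
noncomputable def iter {r : ℕ} (T : Polynomial ℤ) (A : Fin r → Fin r → Polynomial ℤ) : ℕ → Fin r → Fin r → Polynomial ℤ
  | 0 => fun i j => if i = j then 1 else 0
  | s + 1 => fun i j => T * Polynomial.derivative (iter T A s i j) + ∑ l, iter T A s i l * A l j -
      (s : Polynomial ℤ) * (Polynomial.derivative T * iter T A s i j)

/-- The system `T y' = A y` has a fundamental matrix of solutions of the form `u^(-M) ∑_n Φ_n(u) (log u)^n` with
`u^e = x` and convergent power series `Φ_n`: the point `0` is regular or a regular singularity with rational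
exponents. -/
def QuasiUnipotent {r : ℕ} (T : Polynomial ℤ) (A : Fin r → Fin r → Polynomial ℤ) : Prop :=
  ∃ (e M : ℕ) (K : ℝ) (Φ : Matrix (Fin r) (Fin r) (Polynomial (PowerSeries ℂ))), 1 ≤ e ∧ Φ.det ≠ 0 ∧
    (∀ i j n m, ‖coeff m ((Φ i j).coeff n)‖ ≤ K ^ (m + 1)) ∧
    ∀ i j n, atPow e T * (X * PowerSeries.derivative ℂ ((Φ i j).coeff n) +
        ((n : PowerSeries ℂ) + 1) * (Φ i j).coeff (n + 1) - (M : PowerSeries ℂ) * (Φ i j).coeff n) =
      (e : PowerSeries ℂ) * X ^ e * ∑ l, atPow e (A i l) * (Φ l j).coeff n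

/-- `h_1, ..., h_r` are G-functions with rational coefficients which solve the differential system `T y' = A y`, with
the conditions of Siegel and Galochkin, and `0` is a regular point or a regular singularity with rational exponents of
the system. -/
structure GFamily {r : ℕ} (T : Polynomial ℤ) (A : Fin r → Fin r → Polynomial ℤ) (h : Fin r → PowerSeries ℚ) : Prop where
  /-- the denominator is not zero -/
  T_ne : T ≠ 0
  /-- the differential equations -/
  ode : ∀ i, toQ T * PowerSeries.derivative ℚ (h i) = ∑ j, toQ (A i j) * h j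
  /-- the coefficients have geometric growth -/
  size : ∃ C : ℝ, ∀ i m, |((coeff m (h i) : ℚ) : ℝ)| ≤ C ^ (m + 1)
  /-- the common denominators of the coefficients have geometric growth -/
  den : ∃ C : ℝ, ∀ m : ℕ, ∃ d : ℕ, 0 < d ∧ (d : ℝ) ≤ C ^ (m + 1) ∧ ∀ i, ∀ j ≤ m, ∃ a : ℤ, (d : ℚ) * coeff j (h i) = a
  /-- Galochkin's condition: the common denominators of the matrices `G_s / s!` have geometric growth -/
  galochkin : ∃ C : ℝ, ∀ m : ℕ, ∃ d : ℕ, 0 < d ∧ (d : ℝ) ≤ C ^ (m + 1) ∧ ∀ s ≤ m, ∀ i j,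
    ∃ H : Polynomial ℤ, (d : Polynomial ℤ) * iter T A s i j = (s.factorial : Polynomial ℤ) * H
  /-- the local exponents at `0` are rational and the singularity is regular -/
  regular : QuasiUnipotent T A

/-! ### Period matrices and their symmetries -/

section family
variable {r n : ℕ}

/-- The period matrix at `x = 1 / s`: the entries are the polynomials `P a b` in `log s` and in the `h_l(1 / s)`. The rows
belong to a basis of the rational homology, the columns to a basis of the de Rham cohomology. -/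
noncomputable def perMat (h : Fin r → PowerSeries ℚ) (P : Fin n → Fin n → MvPolynomial (Option (Fin r)) ℂ) (s : ℝ) :
    Matrix (Fin n) (Fin n) ℂ :=
  Matrix.of fun a b => MvPolynomial.aeval (fun o : Option (Fin r) => o.elim ((Real.log s : ℝ) : ℂ)
    fun l => ((∑' m : ℕ, ((coeff m (h l) : ℚ) : ℝ) * (1 / s) ^ m : ℝ) : ℂ)) (P a b)

/-- the value at `x = 1 / s` and at the matrix `Z` of a polynomial in the entries of a matrix over `ℂ[x]` -/
noncomputable def relAt (R : MvPolynomial (Fin n × Fin n) (Polynomial ℂ)) (s : ℝ) (Z : Matrix (Fin n) (Fin n) ℂ) : ℂ :=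
  MvPolynomial.eval₂ (Polynomial.evalRingHom (1 / (s : ℂ))) (fun v => Z v.1 v.2) R

/-- `g P(x)` satisfies all polynomial relations over `ℂ[x]` which `P(x)` satisfies. -/
def Preserves (h : Fin r → PowerSeries ℚ) (P : Fin n → Fin n → MvPolynomial (Option (Fin r)) ℂ)
    (g : Matrix (Fin n) (Fin n) ℂ) : Prop :=
  ∀ R : MvPolynomial (Fin n × Fin n) (Polynomial ℂ), (∀ᶠ s : ℝ in Filter.atTop, relAt R s (perMat h P s) = 0) →
    ∀ᶠ s : ℝ in Filter.atTop, relAt R s (g * perMat h P s) = 0

/-- The rational matrices `γ` such that `γ` and `γ⁻¹` preserve the relations: the rational points of the differential Galois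
group of the period matrix. In particular the monodromy group is contained in it, because the relations are preserved
by analytic continuation. -/
def IsSymmetry (h : Fin r → PowerSeries ℚ) (P : Fin n → Fin n → MvPolynomial (Option (Fin r)) ℂ)
    (γ : Matrix (Fin n) (Fin n) ℚ) : Prop :=
  IsUnit γ.det ∧ Preserves h P (γ.map fun x : ℚ => (x : ℂ)) ∧ Preserves h P (γ⁻¹.map fun x : ℚ => (x : ℂ))

end family

/-! ### Hodge structures -/

/-- A real Hodge structure on `ℂ^I`, without weights: `ℂ^I` is the direct sum of the spaces `H p`, and the complex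
conjugate of `H p` is `H (-p)`. For a Hodge structure (of one or of several weights) `H p` is the sum of the spaces
`H^{a, b}` with `a - b = p`. -/
structure IsHodge {I : Type} (H : ℤ → Submodule ℂ (I → ℂ)) : Prop where
  sum : DirectSum.IsInternal H
  conj : ∀ p, ∀ v ∈ H p, (fun a => (starRingEnd ℂ) (v a)) ∈ H (-p)

/-- `H` is the Hodge structure with the period matrix `Z` (rows: Betti, columns: de Rham): the steps of the Hodge filtration
are spanned by the columns `x` with level `lev x ≥ p`; the level of a de Rham class of degree `w` in `F^a`, not in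
`F^(a+1)`, is `a - (w - a)`. -/
structure IsFibre {I : Type} (lev : I → ℤ) (Z : Matrix I I ℂ) (H : ℤ → Submodule ℂ (I → ℂ)) : Prop where
  hodge : IsHodge H
  fil : ∀ p : ℤ, (⨆ q : {q : ℤ // p ≤ q}, H q) = Submodule.span ℂ {v | ∃ x, p ≤ lev x ∧ v = Z.transpose x}

/-- The Hodge operator is the multiplication by `p` on `H p`; it is the derivative of the action of the circle. Matrices
act on row vectors from the right. -/
def IsOperator {I : Type} [Fintype I] (H : ℤ → Submodule ℂ (I → ℂ)) (Φ : Matrix I I ℂ) : Prop :=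
  ∀ p, ∀ v ∈ H p, Matrix.vecMul v Φ = (p : ℂ) • v

/-- The direct sum of two Hodge structures. -/
def oplus {I J : Type} (H : ℤ → Submodule ℂ (I → ℂ)) (H' : ℤ → Submodule ℂ (J → ℂ)) (p : ℤ) : Submodule ℂ (I ⊕ J → ℂ) :=
  (H p).comap (LinearMap.funLeft ℂ ℂ Sum.inl) ⊓ (H' p).comap (LinearMap.funLeft ℂ ℂ Sum.inr)

/-- The action of a matrix as a derivation on the tensors `u ∈ (R^I)^{⊗ q}`; tensors are given by their coordinates, and
matrices act on row vectors from the right. -/
def act {R I : Type} [CommRing R] [Fintype I] {q : ℕ} (X : Matrix I I R) (u : (Fin q → I) → R) : (Fin q → I) → R :=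
  fun p => ∑ l, ∑ y, u (Function.update p l y) * X y (p l)

/-- The rational subspace `U` of `V^{⊗ q}`, `V = ℚ^I` with the Hodge structure `H`, is a sub-Hodge structure: its complex span is
stable under the Hodge operator, so it is the sum of its parts in the spaces `V^{a, b}`. -/
def IsSubHodge {I : Type} [Fintype I] (H : ℤ → Submodule ℂ (I → ℂ)) {q : ℕ} (U : Submodule ℚ ((Fin q → I) → ℚ)) : Prop :=
  ∀ Φ, IsOperator H Φ → ∀ u ∈ U, act Φ (fun p => ((u p : ℚ) : ℂ)) ∈
    Submodule.span ℂ {x | ∃ u ∈ U, x = fun p => ((u p : ℚ) : ℂ)}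

/-- The sesquilinear form `v S conj(w)` polarises the Hodge structure, for example `S` is the real matrix of a polarisation:
the spaces `H p` are orthogonal, and the form `i^p v S conj(v)` is real and positive on `H p`, `v ≠ 0`. -/
structure Polarises {I : Type} [Fintype I] (S : Matrix I I ℂ) (H : ℤ → Submodule ℂ (I → ℂ)) : Prop where
  orth : ∀ p q, p ≠ q → ∀ v ∈ H p, ∀ w ∈ H q, dotProduct v (S.mulVec (star w)) = 0
  pos : ∀ p, ∀ v ∈ H p, v ≠ 0 → ∃ x : ℝ, 0 < x ∧ Complex.I ^ p * dotProduct v (S.mulVec (star v)) = x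

/-- `g ⊗ g ⊗ ⋯ ⊗ g` applied to the tensor `u` -/
def translate {I : Type} [Fintype I] {q : ℕ} (g : Matrix I I ℚ) (u : (Fin q → I) → ℚ) : (Fin q → I) → ℚ :=
  fun p => ∑ y : Fin q → I, (∏ l, g (p l) (y l)) * u y

/-- the image of the subspace `U` under `g ⊗ g ⊗ ⋯ ⊗ g` -/
def moved {I : Type} [Fintype I] {q : ℕ} (g : Matrix I I ℚ) (U : Submodule ℚ ((Fin q → I) → ℚ)) :
    Submodule ℚ ((Fin q → I) → ℚ) :=
  Submodule.span ℚ {x | ∃ u ∈ U, x = translate g u}

/-! ### The theorem -/

/-- an integral matrix as a rational matrix -/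
def toRat {m : ℕ} (γ : Matrix (Fin m) (Fin m) ℤ) : Matrix (Fin m) (Fin m) ℚ := γ.map fun x : ℤ => (x : ℚ)

/-- The integral form `Q` is nondegenerate, alternating or symmetric and indefinite, and all rational isometries of `Q` of
determinant one are symmetries: the Zariski closure of the monodromy group contains the symplectic or the special
orthogonal group of `Q`, for example in Lefschetz pencils with infinite monodromy. -/
structure FullMonodromy {r n : ℕ} (h : Fin r → PowerSeries ℚ) (P : Fin n → Fin n → MvPolynomial (Option (Fin r)) ℂ)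
    (Q : Matrix (Fin n) (Fin n) ℤ) : Prop where
  pos : 0 < n
  det : Q.det ≠ 0
  form : Q.transpose = -Q ∨ (Q.transpose = Q ∧ ∃ x y : Fin n → ℤ, 0 < dotProduct x (Q.mulVec x) ∧ dotProduct y (Q.mulVec y) < 0)
  sym : ∀ γ : Matrix (Fin n) (Fin n) ℚ, γ.transpose * toRat Q * γ = toRat Q → γ.det = 1 → IsSymmetry h P γ

section
variable {k : ℕ} {n : Fin k → ℕ}

/-- the index set of the direct sum of the families -/
abbrev Index (n : Fin k → ℕ) : Type := Σ i : Fin k, Fin (n i)

/-- the action of the matrices `γ_i` on `V ⊕ W`, `V = ⨁ ℚ^(n_i)`, trivial on `W` -/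
def extend (w : ℕ) (γ : ∀ i, Matrix (Fin (n i)) (Fin (n i)) ℚ) : Matrix (Index n ⊕ Fin w) (Index n ⊕ Fin w) ℚ :=
  Matrix.fromBlocks (Matrix.blockDiagonal' γ) 0 0 1

/-- the integral matrices `γ_i` respect the form `S` on `⨁ ℂ^(n_i)` -/
def Respects (S : Matrix (Index n) (Index n) ℂ) (γ : ∀ i, Matrix (Fin (n i)) (Fin (n i)) ℤ) : Prop :=
  (Matrix.blockDiagonal' fun i => (γ i).map fun x : ℤ => (x : ℂ)).transpose * S *
    (Matrix.blockDiagonal' fun i => (γ i).map fun x : ℤ => (x : ℂ)) = S

/-- All sub-Hodge structures `U` of all tensor powers of `M_t ⊕ W` are generic: (1) they stay sub-Hodge structures under all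
rational symmetries of the relations, in particular under the monodromy group acting on the first summand; (2) their orbits
under the integral symmetries which respect a polarisation of `M_t`, in particular under the monodromy group, are finite,
that is, they are stable under a subgroup of finite index; (3) if the monodromy groups are the full symplectic or orthogonal
groups of forms `Q_i` and `M_t` is polarised by `⨁ c_i Q_i`, they are stable under the Lie algebra of the monodromy group, the
infinitesimal isometries of the forms `Q_i`. -/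
def SubHodgeGeneric {ρ : Fin k → ℕ} {w : ℕ} (h : ∀ i, Fin (ρ i) → PowerSeries ℚ)
    (P : ∀ i, Fin (n i) → Fin (n i) → MvPolynomial (Option (Fin (ρ i))) ℂ) (lev : Index n → ℤ)
    (W : ℤ → Submodule ℂ (Fin w → ℂ)) (t : Fin k → ℕ) : Prop :=
  ∀ H : ℤ → Submodule ℂ (Index n → ℂ), IsFibre lev (Matrix.blockDiagonal' fun i => perMat (h i) (P i) (t i : ℝ)) H →
  ∀ (q : ℕ) (U : Submodule ℚ ((Fin q → Index n ⊕ Fin w) → ℚ)), IsSubHodge (oplus H W) U →
    (∀ γ : ∀ i, Matrix (Fin (n i)) (Fin (n i)) ℚ, (∀ i, IsSymmetry (h i) (P i) (γ i)) →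
      IsSubHodge (oplus H W) (moved (extend w γ) U)) ∧
    (∀ S : Matrix (Index n) (Index n) ℂ, Polarises S H →
      {U' | ∃ γ : ∀ i, Matrix (Fin (n i)) (Fin (n i)) ℤ, (∀ i, IsSymmetry (h i) (P i) (toRat (γ i))) ∧ Respects S γ ∧
        U' = moved (extend w fun i => toRat (γ i)) U}.Finite) ∧
    ∀ Q : ∀ i, Matrix (Fin (n i)) (Fin (n i)) ℤ, (∀ i, FullMonodromy (h i) (P i) (Q i)) →
      ∀ c : Fin k → ℂ, Polarises (Matrix.blockDiagonal' fun i => c i • (Q i).map fun x : ℤ => (x : ℂ)) H →
      ∀ X : ∀ i, Matrix (Fin (n i)) (Fin (n i)) ℚ, (∀ i, (X i).transpose * toRat (Q i) + toRat (Q i) * X i = 0) →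
        ∀ u ∈ U, act (Matrix.fromBlocks (Matrix.blockDiagonal' X) 0 0 0).transpose u ∈ U

end

theorem iter_eq {r : ℕ} (T : Polynomial ℤ) (A : Fin r → Fin r → Polynomial ℤ) (s : ℕ) :
    iter T A s = Pool.Agent.Y120.GH.itm T A s := by
  induction s with
  | zero => rfl
  | succ s ih =>
    funext i j
    rw [iter, Pool.Agent.Y120.GH.itm, ih]

theorem qu_eq {r : ℕ} {T : Polynomial ℤ} {A : Fin r → Fin r → Polynomial ℤ} (h : QuasiUnipotent T A) :
    Pool.Agent.Y120.GH.QU0 T A := by
  obtain ⟨e, M, K, Φ, he, hdet, hc, heq⟩ := h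
  have he0 : e ≠ 0 := by omega
  refine ⟨e, he0, M, K, Φ, hc, fun i j n => ?_, hdet⟩
  have h1 := heq i j n
  simp only [atPow] at h1
  rw [Pool.Agent.Y120.GH.expand_poly he0]
  simp only [Pool.Agent.Y120.GH.expand_poly he0]
  exact h1

theorem fam {r : ℕ} {T : Polynomial ℤ} {A : Fin r → Fin r → Polynomial ℤ} {h : Fin r → PowerSeries ℚ}
    (hG : GFamily T A h) (δ : ℕ) : Pool.Agent.Y120.R.Fam δ h :=
  ⟨hG.size, Pool.Agent.Y120.GH.family_main hG.T_ne hG.ode hG.size hG.den (by
    obtain ⟨C, hC⟩ := hG.galochkin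
    refine ⟨C, fun m => ?_⟩
    obtain ⟨d, h1, h2, h3⟩ := hC m
    refine ⟨d, h1, h2, fun s hs i' j' => ?_⟩
    rw [← iter_eq]
    exact h3 s hs i' j') (qu_eq hG.regular) δ⟩

theorem act_eq {I : Type} [Fintype I] {q : ℕ} (X : Matrix I I ℂ) (u : (Fin q → I) → ℂ) :
    act X u = Q207.HT.lieA X.transpose u := by
  funext p
  unfold act
  rw [Q207.HT.lieA_apply]
  exact Finset.sum_congr rfl fun l _ => Finset.sum_congr rfl fun y _ => mul_comm _ _

theorem sym_of {r n : ℕ} {h : Fin r → PowerSeries ℚ} {P : Fin n → Fin n → MvPolynomial (Option (Fin r)) ℂ}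
    {γ : Matrix (Fin n) (Fin n) ℚ} (hγ : IsSymmetry h P γ) :
    ∃ g ∈ Pool.Agent.Y123.GN.Gs h P, (g : Matrix (Fin n) (Fin n) ℂ) = Q207.HG.cmx γ := by
  obtain ⟨h1, h2, h3⟩ := hγ
  have hmul : ∀ X Y : Matrix (Fin n) (Fin n) ℚ, Q207.HG.cmx (X * Y) = Q207.HG.cmx X * Q207.HG.cmx Y := fun X Y => Matrix.map_mul
  have hone : Q207.HG.cmx (1 : Matrix (Fin n) (Fin n) ℚ) = 1 := Matrix.map_one _ (map_zero _) (map_one _)
  exact ⟨⟨Q207.HG.cmx γ, Q207.HG.cmx γ⁻¹, by rw [← hmul, Matrix.mul_nonsing_inv _ h1, hone],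
    by rw [← hmul, Matrix.nonsing_inv_mul _ h1, hone]⟩, ⟨h2, h3⟩, rfl⟩

/-- Let `h_i`, `1 ≤ i ≤ k`, be families of G-functions over `ℚ` (with the conditions of Siegel and Galochkin, regular singular
with rational exponents at `0`), and let `P_i(x)` be square matrices whose entries are polynomials of degree at most `e` with
arbitrary complex coefficients in `log x` and in the functions `h_{i,l}(x)`: the period matrices of the cohomology of families
`X_{i,x}` of smooth projective varieties over an open part of the line, near any rational point `x = 0`, where the family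
may degenerate. Let `M_t` be the Hodge structure `⨁ H^*(X_{i,1/t_i})` with these periods. For every `w` there are `c > 0` and `C₀`,
depending only on `w`, `e`, the `h_i` and the ranks, such that for all such `P_i`, all levels and all Hodge structures `W` of
dimension `w` all but `C₀ N^(k-1) ∑_i (1 + N / (x_i + N)^c)` integral points `t` of each box `∏_i (x_i, x_i + N]` have the
following property: all sub-Hodge structures of all tensor powers of `M_t ⊕ W` stay sub-Hodge structures under the monodromy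
group and have finite orbits under it; if the monodromy groups are full symplectic or orthogonal groups they are stable under
their Lie algebras. -/
theorem result (k e w : ℕ) (ρ n : Fin k → ℕ) (T : Fin k → Polynomial ℤ)
    (A : ∀ i, Fin (ρ i) → Fin (ρ i) → Polynomial ℤ) (h : ∀ i, Fin (ρ i) → PowerSeries ℚ)
    (hG : ∀ i, GFamily (T i) (A i) (h i)) :
    ∃ c C₀ : ℝ, 0 < c ∧ ∀ P : ∀ i, Fin (n i) → Fin (n i) → MvPolynomial (Option (Fin (ρ i))) ℂ,
      (∀ i a b, (P i a b).totalDegree ≤ e) → ∀ (lev : Index n → ℤ) (W : ℤ → Submodule ℂ (Fin w → ℂ)), IsHodge W →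
      ∀ (x : Fin k → ℕ) (N : ℕ), 1 ≤ N →
      (({t : Fin k → ℕ | (∀ i, x i < t i ∧ t i ≤ x i + N) ∧ ¬ SubHodgeGeneric h P lev W t}.ncard : ℕ) : ℝ) ≤
        C₀ * (N : ℝ) ^ (k - 1) * ∑ i, (1 + N / ((x i : ℝ) + N) ^ c) := by
  classical
  obtain ⟨c, C₀, hc, -, hmain'⟩ := Q207.GH.cnt (n := n) w e h fun i δ => fam (hG i) δ
  have hmain : ∀ P : ∀ i, Fin (n i) → Fin (n i) → MvPolynomial (Option (Fin (ρ i))) ℂ,
      (∀ i a b, (P i a b).totalDegree ≤ e) → ∀ CW : Matrix (Fin w) (Fin w) ℂ, ∀ (x : Fin k → ℕ) (N : ℕ), 1 ≤ N →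
      ∀ R : (Fin k → ℕ) → Prop, (∀ t, Q207.GH.Gd h P (Matrix.fromBlocks 1 0 0 CW) t → R t) →
      (({t : Fin k → ℕ | (∀ i, x i < t i ∧ t i ≤ x i + N) ∧ ¬ R t}.ncard : ℕ) : ℝ) ≤
        C₀ * (N : ℝ) ^ (k - 1) * ∑ i, (1 + N / ((x i : ℝ) + N) ^ c) := by
    intro P hP CW x N hN R hR
    have hfin : {t : Fin k → ℕ | (∀ i, x i < t i ∧ t i ≤ x i + N) ∧ ¬ R t}.Finite := by
      refine (Set.finite_Iic (fun i : Fin k => x i + N)).subset ?_
      intro t ht i
      exact (ht.1 i).2
    rw [Set.ncard_eq_toFinset_card _ hfin]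
    refine hmain' P hP (Matrix.fromBlocks 1 0 0 CW) x N hN _ fun t ht => ?_
    obtain ⟨hbox, hgen⟩ := hfin.mem_toFinset.1 ht
    exact ⟨hbox, fun hgood => hgen (hR t hgood)⟩
  refine ⟨c, C₀, hc, fun P hP lev W hW x N hN => ?_⟩
  obtain ⟨CW, levW, hCW, hmem⟩ := Pool.Agent.Q195.HT.adaptedI hW.sum
  obtain ⟨ΦW, hΦW⟩ := Q207.GH.ex_oper hW.sum
  refine hmain P hP CW x N hN _ fun t hgood => ?_
  intro H hH q U hU
  obtain ⟨Φ, hΦ⟩ := Q207.GH.ex_oper (Q207.GH.op_int hH.hodge.sum hW.sum)
  have huni : ∀ Φ', IsOperator (oplus H W) Φ' → Φ' = Φ := by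
    intro Φ' hΦ'
    have htop : (⨆ p, oplus H W p) = ⊤ := (Q207.GH.op_int hH.hodge.sum hW.sum).submodule_iSup_eq_top
    have h1 : ∀ v : Index n ⊕ Fin w → ℂ, Matrix.vecMul v Φ' = Matrix.vecMul v Φ := by
      intro v
      have hv : v ∈ (⨆ p, oplus H W p) := by rw [htop]; exact Submodule.mem_top
      induction hv using Submodule.iSup_induction' with
      | mem p v hv =>
        rw [hΦ' p v hv]
        exact (hΦ p v hv).symm
      | zero => rw [Matrix.zero_vecMul, Matrix.zero_vecMul]
      | add v w _ _ h1 h2 => rw [Matrix.add_vecMul, Matrix.add_vecMul, h1, h2]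
    ext a b
    have h2 := congrFun (h1 (Pi.single a 1)) b
    rw [Matrix.single_one_vecMul, Matrix.single_one_vecMul] at h2
    exact h2
  have hsb : ∀ U' : Submodule ℚ ((Fin q → Index n ⊕ Fin w) → ℚ), Q207.GH.Sb Φ U' → IsSubHodge (oplus H W) U' := by
    intro U' hU' Φ' hΦ' u hu
    rw [huni Φ' hΦ', act_eq]
    exact hU' u hu
  have hU1 : Q207.GH.Sb Φ U := by
    intro u hu
    have h1 := hU Φ hΦ u hu
    rw [act_eq] at h1
    exact h1
  refine ⟨fun γ hγ => hsb _ ?_, fun S hS => ?_, fun Q hQ c' hpol X hX u hu => ?_⟩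
  · exact Q207.GH.core_move hW.sum hW.conj hCW hmem hΦW hgood hH.hodge.sum hH.hodge.conj (fun p => hH.fil p) hΦ hU1
      fun i => sym_of (hγ i)
  · refine (Q207.GH.core_fin hW.sum hW.conj hCW hmem hΦW hgood hH.hodge.sum hH.hodge.conj (fun p => hH.fil p) hΦ hU1
      (S := S) ⟨hS.orth, hS.pos⟩).subset ?_
    rintro _ ⟨γ, hγ, hS2, rfl⟩
    exact ⟨γ, fun i => sym_of (hγ i), hS2, rfl⟩
  · have h1 := Q207.GH.core_fullQ hW.sum hW.conj hCW hmem hΦW hgood hH.hodge.sum hH.hodge.conj (fun p => hH.fil p) hΦ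
      (Q := Q) (fun i => ⟨(hQ i).pos, (hQ i).det, (hQ i).form⟩) (fun γ hγ i => sym_of ((hQ i).sym (γ i) (hγ i).1 (hγ i).2))
      (c := c') ⟨hpol.orth, hpol.pos⟩ hU1 hX hu
    have h2 : act (Matrix.fromBlocks (Matrix.blockDiagonal' X) 0 0 0).transpose u = Q207.GH.der (Q207.GH.em w X) u := by
      funext p
      exact Finset.sum_congr rfl fun l _ => Finset.sum_congr rfl fun y _ => mul_comm _ _
    rw [h2]
    exact h1

end Pool.Agent.Results.MP_0704bf_ag.SubHodgeAtIntegralPoints
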